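import Mathlib

set_option autoImplicit false

namespace Pool.Agent.H660Z.Inc

/-- lift to the paraboloid -/
def hat (x : Fin 5 → ℕ) : (Fin 5 → ℕ) × ℕ := (x, ∑ i, x i ^ 2)

abbrev V : Type := (Fin 5 → ℝ) × ℝ

def cst (y : (Fin 5 → ℕ) × ℕ) : V := (fun i => (y.1 i : ℝ), (y.2 : ℝ))

def H (x : Fin 5 → ℕ) : V := cst (hat x)

theorem H_inj {x y : Fin 5 → ℕ} (h : H x = H y) : x = y := by
  funext i
  have := congrFun (congrArg Prod.fst h) i
  simpa [H, cst, hat] using this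

theorem H_nocol {x y z : Fin 5 → ℕ} (hxy : x ≠ y) (hxz : x ≠ z) (hyz : y ≠ z) (c : ℝ) :
    H z - H x ≠ c • (H y - H x) := by
  intro h
  have h1 : ∀ i, (z i : ℝ) - x i = c * ((y i : ℝ) - x i) := fun i => by
    have := congrFun (congrArg Prod.fst h) i
    simpa [H, cst, hat] using this
  have h2 : (∑ i, (z i : ℝ) ^ 2) - ∑ i, (x i : ℝ) ^ 2
      = c * ((∑ i, (y i : ℝ) ^ 2) - ∑ i, (x i : ℝ) ^ 2) := by
    have := congrArg Prod.snd h
    simpa [H, cst, hat] using this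
  have h3 : c * (c - 1) * ∑ i, ((y i : ℝ) - x i) ^ 2 = 0 := by
    have hz : ∀ i, (z i : ℝ) = x i + c * ((y i : ℝ) - x i) := fun i => by linarith [h1 i]
    simp only [hz, Fin.sum_univ_five] at h2 ⊢
    linear_combination h2
  have h4 : ∑ i, ((y i : ℝ) - x i) ^ 2 ≠ 0 := by
    intro h0
    apply hxy
    funext i
    have := (Finset.sum_eq_zero_iff_of_nonneg (fun j _ => sq_nonneg _)).1 h0 i (Finset.mem_univ _)
    have h5 : (y i : ℝ) - x i = 0 := by simpa using this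
    have : (x i : ℝ) = y i := by linarith
    exact_mod_cast this
  rcases mul_eq_zero.1 h3 with h5 | h5
  · rcases mul_eq_zero.1 h5 with h6 | h6
    · apply hxz
      funext i
      have : (x i : ℝ) = z i := by have := h1 i; rw [h6] at this; linarith
      exact_mod_cast this
    · apply hyz
      funext i
      have hc : c = 1 := by linarith
      have : (y i : ℝ) = z i := by have := h1 i; rw [hc] at this; linarith
      exact_mod_cast this
  · exact h4 h5

/-- a generic projection of the paraboloid to the plane -/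
theorem exists_proj (X : Finset (Fin 5 → ℕ)) :
    ∃ φ ψ : V →ₗ[ℝ] ℝ, (∀ x ∈ X, ∀ y ∈ X, φ (H x) = φ (H y) → x = y) ∧
      ∀ x ∈ X, ∀ y ∈ X, ∀ z ∈ X, x ≠ y → x ≠ z → y ≠ z →
        (φ (H y) - φ (H x)) * (ψ (H z) - ψ (H x)) ≠ (φ (H z) - φ (H x)) * (ψ (H y) - ψ (H x)) := by
  classical
  obtain ⟨φ, hφ⟩ := Module.exists_dual_forall_apply_ne_zero (K := ℝ)
    (ι := {p : X × X // p.1 ≠ p.2}) (fun p => H p.1.2.1 - H p.1.1.1)
    (fun p h => p.2 (Subtype.ext (H_inj (sub_eq_zero.1 h)).symm))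
  have hφ' : ∀ x ∈ X, ∀ y ∈ X, x ≠ y → φ (H y - H x) ≠ 0 := fun x hx y hy hxy =>
    hφ ⟨(⟨x, hx⟩, ⟨y, hy⟩), fun h => hxy (congrArg Subtype.val h)⟩
  obtain ⟨ψ, hψ⟩ := Module.exists_dual_forall_apply_ne_zero (K := ℝ)
    (ι := {p : X × X × X // p.1 ≠ p.2.1 ∧ p.1 ≠ p.2.2 ∧ p.2.1 ≠ p.2.2})
    (fun p => φ (H p.1.2.1.1 - H p.1.1.1) • (H p.1.2.2.1 - H p.1.1.1)
      - φ (H p.1.2.2.1 - H p.1.1.1) • (H p.1.2.1.1 - H p.1.1.1))
    (fun p h => by
      obtain ⟨⟨x, y, z⟩, hxy, hxz, hyz⟩ := p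
      have hxy' : x.1 ≠ y.1 := fun h => hxy (Subtype.ext h)
      have hxz' : x.1 ≠ z.1 := fun h => hxz (Subtype.ext h)
      have hyz' : y.1 ≠ z.1 := fun h => hyz (Subtype.ext h)
      have h0 := hφ' x.1 x.2 y.1 y.2 hxy'
      apply H_nocol hxy' hxz' hyz' (φ (H z.1 - H x.1) / φ (H y.1 - H x.1))
      have h1 := sub_eq_zero.1 h
      simp only at h1
      rw [div_eq_inv_mul, mul_smul, ← h1, smul_smul, inv_mul_cancel₀ h0, one_smul])
  refine ⟨φ, ψ, ?_, ?_⟩
  · intro x hx y hy h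
    by_contra hxy
    apply hφ' x hx y hy hxy
    rw [map_sub, h, sub_self]
  · intro x hx y hy z hz hxy hxz hyz h
    apply hψ ⟨(⟨x, hx⟩, ⟨y, hy⟩, ⟨z, hz⟩), fun h => hxy (congrArg Subtype.val h),
      fun h => hxz (congrArg Subtype.val h), fun h => hyz (congrArg Subtype.val h)⟩
    simp only [map_sub, map_smul, smul_eq_mul]
    linarith

/-- at most two points of the projected paraboloid on a line -/
theorem card_le_two {ι : Type} [DecidableEq ι] (X : Finset ι) (f g : ι → ℝ)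
    (hcol : ∀ x ∈ X, ∀ y ∈ X, ∀ z ∈ X, x ≠ y → x ≠ z → y ≠ z →
        (f y - f x) * (g z - g x) ≠ (f z - f x) * (g y - g x))
    (β γ δ : ℝ) (h0 : β ≠ 0 ∨ γ ≠ 0) :
    (X.filter fun x => β * f x + γ * g x = δ).card ≤ 2 := by
  by_contra hc
  push Not at hc
  obtain ⟨x, y, z, hx, hy, hz, hxy, hxz, hyz⟩ := Finset.two_lt_card_iff.1 hc
  simp only [Finset.mem_filter] at hx hy hz
  apply hcol x hx.1 y hy.1 z hz.1 hxy hxz hyz
  rcases h0 with h0 | h0
  · apply mul_left_cancel₀ h0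
    linear_combination (g z - g x) * hy.2 - (g y - g x) * hz.2 + (g y - g z) * hx.2
  · apply mul_left_cancel₀ h0
    linear_combination (f y - f x) * hz.2 - (f z - f x) * hy.2 + (f z - f y) * hx.2

abbrev E : Type := EuclideanSpace ℝ (Fin 3)

noncomputable def pt (t u v : ℝ) : E := !₂[t, u, v]

noncomputable def line (a a' b b' : ℝ) : AffineSubspace ℝ E :=
  AffineSubspace.mk' (pt 0 a a') (Submodule.span ℝ {pt 1 b b'})

theorem pt_ne (b b' : ℝ) : pt 1 b b' ≠ 0 := by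
  intro h
  have := congrArg (fun v : E => v 0) h
  simp [pt] at this

theorem line_dim (a a' b b' : ℝ) : Module.finrank ℝ (line a a' b b').direction = 1 := by
  rw [line, AffineSubspace.direction_mk']
  exact finrank_span_singleton (pt_ne b b')

theorem mem_line (a a' b b' : ℝ) (p : E) :
    p ∈ line a a' b b' ↔ p 1 = a + p 0 * b ∧ p 2 = a' + p 0 * b' := by
  rw [line, AffineSubspace.mem_mk', Submodule.mem_span_singleton]
  constructor
  · rintro ⟨c, hc⟩
    have h0 := congrArg (fun v : E => v 0) hc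
    have h1 := congrArg (fun v : E => v 1) hc
    have h2 := congrArg (fun v : E => v 2) hc
    simp [pt] at h0 h1 h2
    rw [← h0]
    constructor <;> linarith
  · rintro ⟨h1, h2⟩
    refine ⟨p 0, ?_⟩
    ext i
    fin_cases i <;> simp [pt, h1, h2]

theorem pt_mem_line (a a' b b' t : ℝ) : pt t (a + t * b) (a' + t * b') ∈ line a a' b b' := by
  rw [mem_line]; simp [pt]

theorem line_inj {a a' b b' c c' d d' : ℝ} (h : line a a' b b' = line c c' d d') :
    a = c ∧ b = d := by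
  have h0 := pt_mem_line a a' b b' 0
  have h1 := pt_mem_line a a' b b' 1
  rw [h, mem_line] at h0 h1
  simp [pt] at h0 h1
  exact ⟨h0.1, by linarith [h0.1, h1.1]⟩

/-- a plane has a normal vector -/
theorem plane_eq (π : AffineSubspace ℝ E) (hπ : Module.finrank ℝ π.direction = 2) :
    ∃ α β γ δ : ℝ, (α ≠ 0 ∨ β ≠ 0 ∨ γ ≠ 0) ∧ ∀ p ∈ π, α * p 0 + β * p 1 + γ * p 2 = δ := by
  have hne : π.direction ≠ ⊤ := by
    intro h
    rw [h, finrank_top] at hπ
    simp at hπ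
  have hne' : π.directionᗮ ≠ ⊥ := by
    intro h
    exact hne ((Submodule.orthogonal_eq_bot_iff).1 h)
  obtain ⟨n, hn, hn0⟩ := Submodule.exists_mem_ne_zero_of_ne_bot hne'
  have hnz : n 0 ≠ 0 ∨ n 1 ≠ 0 ∨ n 2 ≠ 0 := by
    by_contra hc
    push Not at hc
    apply hn0
    ext i
    fin_cases i <;> simp [hc.1, hc.2.1, hc.2.2]
  by_cases hp : ∃ p0, p0 ∈ π
  · obtain ⟨p0, hp0⟩ := hp
    refine ⟨n 0, n 1, n 2, n 0 * p0 0 + n 1 * p0 1 + n 2 * p0 2, hnz, fun p hp => ?_⟩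
    have h1 := (Submodule.mem_orthogonal _ _).1 hn _ (AffineSubspace.vsub_mem_direction hp hp0)
    simp [PiLp.inner_apply, Fin.sum_univ_three] at h1
    linarith
  · exact ⟨n 0, n 1, n 2, 0, hnz, fun p hp' => absurd ⟨p, hp'⟩ hp⟩

end Pool.Agent.H660Z.Inc
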