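import Pool.Agent.H660Z.Inc.Gen

set_option autoImplicit false

namespace Pool.Agent.H660Z.Inc

open Finset

def box (M : ℕ) : Finset (Fin 5 → ℕ) := Fintype.piFinset fun _ => range M

theorem card_box (M : ℕ) : (box M).card = M ^ 5 := by
  simp [box, Fintype.card_piFinset]

theorem mem_box {M : ℕ} {x : Fin 5 → ℕ} : x ∈ box M ↔ ∀ i, x i < M := by
  simp [box, Fintype.mem_piFinset]

theorem cst_comb (a b : Fin 5 → ℕ) (t : ℕ) :
    cst (a + t • b, (∑ i, a i ^ 2) + t * ∑ i, b i ^ 2) = H a + (t : ℝ) • H b := by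
  ext i <;> simp [cst, H, hat]

theorem config (k M : ℕ) (hk : 1 ≤ k) :
    ∃ (P : Finset E) (L : Finset (AffineSubspace ℝ E)),
      (∀ l ∈ L, Module.finrank ℝ l.direction = 1) ∧
      (∀ π : AffineSubspace ℝ E, Module.finrank ℝ π.direction = 2 →
          {l : AffineSubspace ℝ E | l ∈ L ∧ l ≤ π}.ncard ≤ 4) ∧
      P.card ≤ 5 * k ^ 7 * M ^ 7 ∧ L.card ≤ M ^ 10 ∧
      k * M ^ 10 ≤ {x : E × AffineSubspace ℝ E | x.1 ∈ P ∧ x.2 ∈ L ∧ x.1 ∈ x.2}.ncard := by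
  classical
  obtain ⟨φ, ψ, hinj, hcol⟩ := exists_proj (box M)
  let ln : (Fin 5 → ℕ) × (Fin 5 → ℕ) → AffineSubspace ℝ E := fun p =>
    line (φ (H p.1)) (ψ (H p.1)) (φ (H p.2)) (ψ (H p.2))
  let q : ℕ × (Fin 5 → ℕ) × ℕ → E := fun y => pt y.1 (φ (cst y.2)) (ψ (cst y.2))
  let P : Finset E := (range k ×ˢ box (k * M) ×ˢ range (5 * k * M ^ 2)).image q
  let L : Finset (AffineSubspace ℝ E) := (box M ×ˢ box M).image ln
  refine ⟨P, L, ?_, ?_, ?_, ?_, ?_⟩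
  · intro l hl
    obtain ⟨p, -, rfl⟩ := mem_image.1 hl
    exact line_dim _ _ _ _
  · intro π hπ
    obtain ⟨α, β, γ, δ, hn, hp⟩ := plane_eq π hπ
    have key : ∀ p : (Fin 5 → ℕ) × (Fin 5 → ℕ), ln p ≤ π →
        β * φ (H p.1) + γ * ψ (H p.1) = δ ∧ β * φ (H p.2) + γ * ψ (H p.2) = -α := by
      intro p h
      have h0 := hp _ (h (pt_mem_line _ _ _ _ 0))
      have h1 := hp _ (h (pt_mem_line _ _ _ _ 1))
      simp [pt] at h0 h1
      constructor <;> linarith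
    by_cases h0 : β ≠ 0 ∨ γ ≠ 0
    · have hA := card_le_two (box M) (fun x => φ (H x)) (fun x => ψ (H x)) hcol β γ δ h0
      have hB := card_le_two (box M) (fun x => φ (H x)) (fun x => ψ (H x)) hcol β γ (-α) h0
      have hsub : {l : AffineSubspace ℝ E | l ∈ L ∧ l ≤ π} ⊆
          ((((box M).filter fun x => β * φ (H x) + γ * ψ (H x) = δ) ×ˢ
            ((box M).filter fun x => β * φ (H x) + γ * ψ (H x) = -α)).image ln : Finset _) := by
        rintro l ⟨hl, hle⟩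
        obtain ⟨p, hp', rfl⟩ := mem_image.1 hl
        obtain ⟨h1, h2⟩ := key p hle
        rw [mem_product] at hp'
        exact mem_coe.2 (mem_image.2 ⟨p, mem_product.2
          ⟨mem_filter.2 ⟨hp'.1, h1⟩, mem_filter.2 ⟨hp'.2, h2⟩⟩, rfl⟩)
      refine (Set.ncard_le_ncard hsub (Finset.finite_toSet _)).trans ?_
      rw [Set.ncard_coe_finset]
      refine card_image_le.trans ?_
      rw [card_product]
      exact Nat.mul_le_mul hA hB
    · push Not at h0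
      have : {l : AffineSubspace ℝ E | l ∈ L ∧ l ≤ π} = ∅ := by
        rw [Set.eq_empty_iff_forall_notMem]
        rintro l ⟨hl, hle⟩
        obtain ⟨p, hp', rfl⟩ := mem_image.1 hl
        obtain ⟨h1, h2⟩ := key p hle
        rw [h0.1, h0.2] at h2
        rcases hn with h | h | h
        · apply h; linarith
        · exact h h0.1
        · exact h h0.2
      rw [this]; simp
  · refine card_image_le.trans (le_of_eq ?_)
    rw [card_product, card_product, card_box, card_range, card_range]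
    ring
  · refine card_image_le.trans (le_of_eq ?_)
    rw [card_product, card_box]
    ring
  · let F : ℕ × (Fin 5 → ℕ) × (Fin 5 → ℕ) → E × AffineSubspace ℝ E := fun z =>
      (pt z.1 (φ (H z.2.1) + z.1 * φ (H z.2.2)) (ψ (H z.2.1) + z.1 * ψ (H z.2.2)), ln z.2)
    have hF : Set.InjOn F (range k ×ˢ box M ×ˢ box M : Finset _) := by
      rintro ⟨t, a, b⟩ hz ⟨t', a', b'⟩ hz' h
      simp only [coe_product, Set.mem_prod, mem_coe] at hz hz'
      have h1 := congrArg (fun x : E × AffineSubspace ℝ E => x.1 0) h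
      have h2 := line_inj (congrArg Prod.snd h)
      simp [F, pt] at h1
      rw [h1, hinj a hz.2.1 a' hz'.2.1 h2.1, hinj b hz.2.2 b' hz'.2.2 h2.2]
    have hfin : {x : E × AffineSubspace ℝ E | x.1 ∈ P ∧ x.2 ∈ L ∧ x.1 ∈ x.2}.Finite :=
      (Finset.finite_toSet (P ×ˢ L)).subset fun x hx => mem_coe.2 (mem_product.2 ⟨hx.1, hx.2.1⟩)
    have hsub : (((range k ×ˢ box M ×ˢ box M).image F : Finset _) : Set _) ⊆
        {x : E × AffineSubspace ℝ E | x.1 ∈ P ∧ x.2 ∈ L ∧ x.1 ∈ x.2} := by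
      intro x hx
      obtain ⟨⟨t, a, b⟩, hz, rfl⟩ := mem_image.1 (mem_coe.1 hx)
      simp only [mem_product, mem_range, mem_box] at hz
      obtain ⟨ht, ha, hb⟩ := hz
      refine ⟨?_, mem_image.2 ⟨(a, b), mem_product.2 ⟨mem_box.2 ha, mem_box.2 hb⟩, rfl⟩,
        pt_mem_line _ _ _ _ _⟩
      refine mem_image.2 ⟨(t, a + t • b, (∑ i, a i ^ 2) + t * ∑ i, b i ^ 2), ?_, ?_⟩
      · simp only [mem_product, mem_range, mem_box]
        refine ⟨ht, fun i => ?_, ?_⟩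
        · have h1 := ha i
          have h2 := hb i
          simp only [Pi.add_apply, Pi.smul_apply, smul_eq_mul]
          have h3 : t * b i ≤ t * M := Nat.mul_le_mul_left _ h2.le
          have h4 : (t + 1) * M ≤ k * M := Nat.mul_le_mul_right _ ht
          nlinarith
        · have hs : ∀ c : Fin 5 → ℕ, (∀ i, c i < M) → ∑ i, c i ^ 2 < 5 * M ^ 2 := by
            intro c hc
            have h5 : ∀ i, c i ^ 2 < M ^ 2 := fun i => Nat.pow_lt_pow_left (hc i) two_ne_zero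
            rw [Fin.sum_univ_five]
            linarith [h5 0, h5 1, h5 2, h5 3, h5 4]
          have h1 := hs a ha
          have h2 := hs b hb
          have h3 : t * ∑ i, b i ^ 2 ≤ t * (5 * M ^ 2) := Nat.mul_le_mul_left _ h2.le
          have h4 : (t + 1) * (5 * M ^ 2) ≤ k * (5 * M ^ 2) := Nat.mul_le_mul_right _ ht
          nlinarith
      · simp only [q, F, cst_comb, map_add, map_smul, smul_eq_mul]
    refine le_trans (le_of_eq ?_) (Set.ncard_le_ncard hsub hfin)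
    rw [Set.ncard_coe_finset, card_image_of_injOn hF, card_product, card_product, card_box,
      card_range]
    ring

theorem main :
    ¬ (∀ s : ℕ, ∃ C : ℝ, ∀ (P : Finset E) (L : Finset (AffineSubspace ℝ E)),
      (∀ l ∈ L, Module.finrank ℝ l.direction = 1) →
      (∀ π : AffineSubspace ℝ E, Module.finrank ℝ π.direction = 2 →
          {l : AffineSubspace ℝ E | l ∈ L ∧ l ≤ π}.ncard ≤ s) →
      (({x : E × AffineSubspace ℝ E | x.1 ∈ P ∧ x.2 ∈ L ∧ x.1 ∈ x.2}.ncard : ℕ) : ℝ) ≤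
        C * ((P.card : ℝ) ^ ((2 : ℝ) / 3) * (L.card : ℝ) ^ ((1 : ℝ) / 2)
          + (P.card : ℝ) + (L.card : ℝ))) := by
  intro h
  obtain ⟨C, hC⟩ := h 4
  obtain ⟨j, hj⟩ := exists_nat_gt (10 * |C| + 1)
  have hj1 : (1 : ℝ) < j := by linarith [abs_nonneg C]
  have hj1' : 1 ≤ j := by exact_mod_cast hj1.le
  obtain ⟨P, L, h1, h2, hP, hL, hI⟩ := config (j ^ 3) (j ^ 36) (Nat.one_le_pow _ _ hj1')
  have h3 := hC P L h1 h2
  have hP' : (P.card : ℝ) ≤ 5 * (j : ℝ) ^ 273 := by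
    have : (P.card : ℝ) ≤ ((5 * (j ^ 3) ^ 7 * (j ^ 36) ^ 7 : ℕ) : ℝ) := by exact_mod_cast hP
    refine this.trans (le_of_eq ?_)
    push_cast; ring
  have hL' : (L.card : ℝ) ≤ (j : ℝ) ^ 360 := by
    have : (L.card : ℝ) ≤ (((j ^ 36) ^ 10 : ℕ) : ℝ) := by exact_mod_cast hL
    refine this.trans (le_of_eq ?_)
    push_cast; ring
  have hI' : (j : ℝ) ^ 363 ≤
      (({x : E × AffineSubspace ℝ E | x.1 ∈ P ∧ x.2 ∈ L ∧ x.1 ∈ x.2}.ncard : ℕ) : ℝ) := by
    have : ((j ^ 3 * (j ^ 36) ^ 10 : ℕ) : ℝ) ≤ _ := Nat.cast_le.2 hI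
    refine le_trans (le_of_eq ?_) this
    push_cast; ring
  have hj0 : (0 : ℝ) ≤ j := by linarith
  have a1 : (P.card : ℝ) ^ ((2 : ℝ) / 3) ≤ 4 * (j : ℝ) ^ 182 := by
    have e : (4 * (j : ℝ) ^ 182) = ((2 * (j : ℝ) ^ 91) ^ 3) ^ ((2 : ℝ) / 3) := by
      rw [← Real.rpow_natCast (2 * (j : ℝ) ^ 91) 3, ← Real.rpow_mul (by positivity)]
      norm_num
      ring
    rw [e]
    apply Real.rpow_le_rpow (Nat.cast_nonneg _) _ (by norm_num)
    have : (0 : ℝ) ≤ (j : ℝ) ^ 273 := by positivity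
    calc (P.card : ℝ) ≤ 5 * (j : ℝ) ^ 273 := hP'
      _ ≤ 8 * (j : ℝ) ^ 273 := by linarith
      _ = (2 * (j : ℝ) ^ 91) ^ 3 := by ring
  have a2 : (L.card : ℝ) ^ ((1 : ℝ) / 2) ≤ (j : ℝ) ^ 180 := by
    have e : ((j : ℝ) ^ 180) = (((j : ℝ) ^ 180) ^ 2) ^ ((1 : ℝ) / 2) := by
      rw [← Real.rpow_natCast ((j : ℝ) ^ 180) 2, ← Real.rpow_mul (by positivity)]
      norm_num
    rw [e]
    apply Real.rpow_le_rpow (Nat.cast_nonneg _) _ (by norm_num)
    calc (L.card : ℝ) ≤ (j : ℝ) ^ 360 := hL'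
      _ = ((j : ℝ) ^ 180) ^ 2 := by ring
  have a3 : (P.card : ℝ) ^ ((2 : ℝ) / 3) * (L.card : ℝ) ^ ((1 : ℝ) / 2) ≤ 4 * (j : ℝ) ^ 362 := by
    calc _ ≤ (4 * (j : ℝ) ^ 182) * (j : ℝ) ^ 180 :=
          mul_le_mul a1 a2 (by positivity) (by positivity)
      _ = 4 * (j : ℝ) ^ 362 := by ring
  have b1 : (j : ℝ) ^ 273 ≤ (j : ℝ) ^ 362 := pow_le_pow_right₀ hj1.le (by norm_num)
  have b2 : (j : ℝ) ^ 360 ≤ (j : ℝ) ^ 362 := pow_le_pow_right₀ hj1.le (by norm_num)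
  set S : ℝ := (P.card : ℝ) ^ ((2 : ℝ) / 3) * (L.card : ℝ) ^ ((1 : ℝ) / 2)
          + (P.card : ℝ) + (L.card : ℝ) with hS
  have hS0 : 0 ≤ S := by positivity
  have hS1 : S ≤ 10 * (j : ℝ) ^ 362 := by linarith
  have hpos : (0 : ℝ) < (j : ℝ) ^ 362 := by positivity
  have c1 : C * S ≤ |C| * (10 * (j : ℝ) ^ 362) :=
    (mul_le_mul_of_nonneg_right (le_abs_self C) hS0).trans
      (mul_le_mul_of_nonneg_left hS1 (abs_nonneg C))
  have c2 : (j : ℝ) ^ 363 = j * (j : ℝ) ^ 362 := by ring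
  have c3 : (10 * |C| + 1) * (j : ℝ) ^ 362 < j * (j : ℝ) ^ 362 :=
    mul_lt_mul_of_pos_right hj hpos
  nlinarith

end Pool.Agent.H660Z.Inc
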